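import Pool.Agent.H49.SZ.Fs2
import Pool.Agent.H49.SZ.Lm

/-!
# First occurrences of gaps are independent of RH, Lindelöf, the zeros, the Hardy-Littlewood laws of all constellations and the Poisson law

A system of generalised primes (Beurling primes) is a sequence `1 < q 0 < q 1 < ...` of real numbers; its generalised
integers are the products `gint q n = ∏ q (k - 1)` over the prime factors of `n` (with multiplicity, the factor being the
`k`-th prime number), one for every `n ≥ 1`, counted with multiplicity; for `q = 2, 3, 5, ...` one has `gint q n = n` and the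
zeta function is the Riemann zeta function.

`RHSystem q Z` (`Pool/Agent/H49/BZ/Final.lean`) collects what the Riemann hypothesis and the Lindelöf hypothesis would give for
the primes: the generalised primes satisfy the prime number theorem with the error `O(x ^ (1 / 2 + ε))`, the generalised
integers have a positive density with the error `O(x ^ (1 / 2 + ε))`, the zeta function is `Z s / (s - 1)` for `Re s > 1` with a
function `Z` that is holomorphic in `Re s > 1 / 3` (so the zeta function has a meromorphic continuation across the critical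
line, with one simple pole), and in `Re s > 1 / 2` one has `Z s = s * exp (G s)` with
`|G (σ + i t)| = O(√ (log (|t| + 3)))` uniformly in every half-plane `σ ≥ σ₀ > 1 / 2`.

`HasZeros Z γ`, `ExplicitFormula q γ`, `Constellations q c` (`Pool/Agent/H49/KZ/Sys0.lean`): the zeros in `Re s > 1 / 3` are
`1 / 2 ± i γ_k`, with multiplicity; the number of the primes up to `x` is given by the zeros, through an explicit formula with
cut-offs, with the error `O(x ^ ε)`; for ALL finite patterns `D` the number of the primes `p ≤ x` with `p + d` prime for all `d ∈ D` is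
`c D ∫_2^x du / (log u) ^ |D| + O(x ^ (1 / 2 + ε))`, for instance with the constants of Hardy and Littlewood.

`PoissonLaw q` (`Pool/Agent/H49/KZ/SysP.lean`): for every `l > 0` and every `k` the proportion of the `x ≤ X` with exactly `k` primes in
`(x, x + l log x]` tends to `e ^ (-l) l ^ k / k!`, as in Cramér's model, from which Shanks derived his conjecture.

`firstAfter q g` (`Pool/Agent/H49/SH/First.lean`) is the first generalised prime after a gap of length at least `g + 1`; for the
primes themselves this is the function `p(g)` of the question.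

The theorem: the Poisson law holds; prescribe the zeros (any list of ordinates with at most `C(ε) (T + 1) ^ ε` of them in the windows `[T, T + 1]`, as for
the Riemann zeta function), the constants of all constellations and the function `p(g)`. There is a system with these
data, where `p(g)` is prescribed up to an error `O(g)`, as soon as it increases by at least `2 g` at each step, is at least
`g ^ 4`, and has `log p(g) = o(g)`. On the logarithmic scale every nondecreasing function between `log g` and `g` occurs, and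
`log p(g) / √g` can have every pair `0 ≤ a ≤ b ≤ ∞` as lower and upper limit.

Proof. Take the systems of `Pool.Agent.H73.KZ` and `Pool.Agent.H73.KP` (blocks of slowly growing masses with random patterns at random
positions for the density with the given zeros; in the blocks without a pattern, which are almost all blocks, a rotated copy of a
configuration that contains all functions `Fin m → Fin (m ^ 2)`, so that its windows are exactly binomial), with gaps so small that they are at most `g / 8` between `P(g)` and `P(g + 1)`. For every large `g`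
the points in `(α, α + g + 1]`, where `α` is the first point after `P(g)`, are moved to the right of `α + g + 1`. These holes
are separated, `O(√x)` points up to `x` are moved, and the counting function changes by `O(x ^ (1 / 4))` (by `O(x ^ ε)` if `P` grows
faster than every power), which changes neither the zeros in `Re s > 1 / 3` nor the laws of the patterns.
-/

set_option autoImplicit false

open Filter Topology

namespace Pool.Agent.Results.MP_926cc3_nt.FirstOccurrencesGivenTuples

open Pool.Agent.H49.BZ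
open Pool.Agent.H49.SH (firstAfter)

theorem firsts_const {γ : ℕ → ℝ} (h0 : ∀ k, 0 < γ k) (hm : Monotone γ) (hW : Windows γ) {c : Finset ℕ → ℝ}
    (hc : ∀ D, 0 ≤ c D)
    (hc0 : ∀ D D' : Finset ℕ, 0 ∈ D → 2 ≤ D.card → 0 ∈ D' → (∃ t, ∀ d ∈ D, t + d ∈ D') → c D = 0 → c D' = 0)
    {P : ℕ → ℝ} (hpow : ∀ᶠ g : ℕ in atTop, (g : ℝ) ^ 4 ≤ P g) (hstep : ∀ᶠ g : ℕ in atTop, P g + 2 * g ≤ P (g + 1))
    (hlog : Tendsto (fun g : ℕ => Real.log (P g) / g) atTop (𝓝 0)) :
    ∃ (q : ℕ → ℝ) (Z : ℂ → ℂ), RHSystem q Z ∧ HasZeros Z γ ∧ Constellations q c ∧ PoissonLaw q ∧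
      ((∀ A : ℕ, ∀ᶠ g : ℕ in atTop, (g : ℝ) ^ A ≤ P g) → ExplicitFormula q γ) ∧
      (∀ g : ℕ, ∃ n, (g : ℝ) + 1 ≤ q (n + 1) - q n) ∧
      ∀ᶠ g : ℕ in atTop, P g ≤ firstAfter q g ∧ firstAfter q g ≤ P g + 2 * g := by
  have hmt : ∀ {D D' : Finset ℕ}, Pool.Agent.H73.KT.mult D D' ≠ 0 → ∃ t, ∀ d ∈ D, t + d ∈ D' := by
    intro D D' h
    obtain ⟨t, _, h⟩ := Pool.Agent.H73.KT.mult_ne h
    exact ⟨t, h⟩
  obtain ⟨q, Z, hZ, hord, hex, hlaw, hpoi, h1, h2⟩ := Pool.Agent.H49.SZ.firstsP h0 hm hW (Pool.Agent.H73.KT.nb_laws hc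
    (fun D D' hD hD2 hD' hm => hc0 D D' hD hD2 hD' (hmt hm)) (Bad := fun _ => False) (fun _ _ _ h => h)
    (X := ∅) MeasurableSet.empty) hpow hstep hlog
  refine ⟨q, Z, hZ, hord, fun D hD hD2 ε hε => ?_, hpoi, hex, h1, h2⟩
  obtain ⟨C, hC⟩ := hlaw D hD hD2 ε hε
  refine ⟨C, fun x hx => ?_⟩
  rw [← Pool.Agent.H73.KT.nb_int (Bad := fun _ => False) (X := ∅) hD2 (fun h => h) hx]
  exact hC x hx

/-- Let `c D ≥ 0` be constants for the patterns `D`, with `c D' = 0` if `D'` contains a translate of a `D` with `c D = 0` (for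
instance the constants of Hardy and Littlewood), and let `γ` be a nondecreasing sequence of positive numbers with `O(T ^ ε)`
terms in the windows `[T, T + 1]`. There are generalised primes with the analogues of the Riemann hypothesis and of the Lindelöf
hypothesis, with the zeros `1 / 2 ± i γ_k`, with the laws `c D ∫_2^x du / (log u) ^ |D| + O(x ^ (1 / 2 + ε))` of all constellations and
with the Poisson law of short intervals, such that (1) the first occurrences are prescribed up to `O(g)`, (2) they are prescribed asymptotically on the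
logarithmic scale, (3) the lower and the upper limit of `log p(g) / √g` are prescribed. -/
theorem result :
    ∀ c : Finset ℕ → ℝ, (∀ D, 0 ≤ c D) →
      (∀ D D' : Finset ℕ, 0 ∈ D → 2 ≤ D.card → 0 ∈ D' → (∃ t, ∀ d ∈ D, t + d ∈ D') → c D = 0 → c D' = 0) →
      ∀ γ : ℕ → ℝ, Monotone γ → (∀ k, 0 < γ k) → Windows γ →
      (∀ P : ℕ → ℝ, (∀ᶠ g : ℕ in atTop, (g : ℝ) ^ 4 ≤ P g) → (∀ᶠ g : ℕ in atTop, P g + 2 * g ≤ P (g + 1)) →
        Tendsto (fun g : ℕ => Real.log (P g) / g) atTop (𝓝 0) →
        ∃ (q : ℕ → ℝ) (Z : ℂ → ℂ), RHSystem q Z ∧ HasZeros Z γ ∧ Constellations q c ∧ PoissonLaw q ∧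
          ((∀ A : ℕ, ∀ᶠ g : ℕ in atTop, (g : ℝ) ^ A ≤ P g) → ExplicitFormula q γ) ∧
          (∀ g : ℕ, ∃ n, (g : ℝ) + 1 ≤ q (n + 1) - q n) ∧
          ∀ᶠ g : ℕ in atTop, P g ≤ firstAfter q g ∧ firstAfter q g ≤ P g + 2 * g) ∧
      (∀ κ : ℕ → ℝ, Monotone κ → Tendsto (fun g : ℕ => κ g / Real.log g) atTop atTop →
        Tendsto (fun g : ℕ => κ g / g) atTop (𝓝 0) →
        ∃ (q : ℕ → ℝ) (Z : ℂ → ℂ), RHSystem q Z ∧ HasZeros Z γ ∧ ExplicitFormula q γ ∧ Constellations q c ∧
          PoissonLaw q ∧
          (∀ g : ℕ, ∃ n, (g : ℝ) + 1 ≤ q (n + 1) - q n) ∧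
          Tendsto (fun g : ℕ => Real.log (firstAfter q g) / κ g) atTop (𝓝 1)) ∧
      ∀ a b : EReal, 0 ≤ a → a ≤ b →
        ∃ (q : ℕ → ℝ) (Z : ℂ → ℂ), RHSystem q Z ∧ HasZeros Z γ ∧ ExplicitFormula q γ ∧ Constellations q c ∧
          PoissonLaw q ∧
          (∀ g : ℕ, ∃ n, (g : ℝ) + 1 ≤ q (n + 1) - q n) ∧
          liminf (fun g : ℕ => ((Real.log (firstAfter q g) / √g : ℝ) : EReal)) atTop = a ∧
          limsup (fun g : ℕ => ((Real.log (firstAfter q g) / √g : ℝ) : EReal)) atTop = b := by
  intro c hc hc0 γ hm h0 hW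
  have hG : Pool.Agent.H49.SZ.Presc (fun q => ∃ Z : ℂ → ℂ, RHSystem q Z ∧ HasZeros Z γ ∧ ExplicitFormula q γ ∧
      Constellations q c ∧ PoissonLaw q) := by
    intro P h1 h2 h3
    obtain ⟨q, Z, hZ, hord, hcon, hpoi, hex, h4, h5⟩ := firsts_const h0 hm hW hc hc0 (h1 4) h2 h3
    exact ⟨q, ⟨Z, hZ, hord, hex h1, hcon, hpoi⟩, h4, h5⟩
  refine ⟨fun P h1 h2 h3 => firsts_const h0 hm hW hc hc0 h1 h2 h3, fun κ h1 h2 h3 => ?_, fun a b h1 h2 => ?_⟩
  · obtain ⟨q, ⟨Z, hZ, hord, hex, hcon, hpoi⟩, h4, h5⟩ := Pool.Agent.H49.SZ.prescribed_log hG h1 h2 h3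
    exact ⟨q, Z, hZ, hord, hex, hcon, hpoi, h4, h5⟩
  · obtain ⟨q, ⟨Z, hZ, hord, hex, hcon, hpoi⟩, h4, h5⟩ := Pool.Agent.H49.SZ.shanks_pair hG h1 h2
    exact ⟨q, Z, hZ, hord, hex, hcon, hpoi, h4, h5⟩

end Pool.Agent.Results.MP_926cc3_nt.FirstOccurrencesGivenTuples
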