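import Pool.Agent.H41.HZ.Main
import Pool.Agent.H41.HZ.Rng
import Pool.Agent.H22.HZ.Blk
import Pool.Agent.H76.HZ.Exi
import Pool.Agent.H41.HZ.Ana
import Pool.Agent.H31.HZ.CRM

/-!
# Shanks' law and the tail of the gaps

Random sets `A = {n | ω ∈ E n}` whose gaps have the cumulative hazard `Λ` on the scale `log n`.
-/

set_option autoImplicit false

namespace Pool.Agent.Results.MP_926cc3_nt.HazardOfGaps

open MeasureTheory Filter Topology ProbabilityTheory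
open Pool.Agent.H34.ND (Free firstAfter)
open Pool.Agent.H41.LD (Past)
open Pool.Agent.H41.SL (Unb lowerLaw upperLaw)
open Pool.Agent.H41.HZ

/-- (1) The law of the first occurrences. (2) The models exist. (3) Cramér's model. (4) All limits
occur. -/
theorem result :
    (∀ Λ : ℝ → ℝ, Scale Λ → ∃ ψ : ℕ → ℝ, IsPsi Λ ψ ∧
      ∀ (Ω : Type) [MeasurableSpace Ω] (P : Measure Ω) [IsProbabilityMeasure P] (E : ℕ → Set Ω),
        Hazard P E Λ →
        (∀ᵐ ω ∂P, Unb {n | ω ∈ E n} ∧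
          Tendsto (fun g : ℕ => Real.log (firstAfter {n | ω ∈ E n} g) / ψ g) atTop (𝓝 1) ∧
          lowerLaw {n | ω ∈ E n} = liminf (fun t : ℝ => ((√(Λ t / t) : ℝ) : EReal)) atTop ∧
          upperLaw {n | ω ∈ E n} = limsup (fun t : ℝ => ((√(Λ t / t) : ℝ) : EReal)) atTop) ∧
        ((∀ᵐ ω ∂P, Tendsto (fun g : ℕ => Real.log (firstAfter {n | ω ∈ E n} g) / √(g : ℝ)) atTop
            (𝓝 1)) ↔
          Tendsto (fun t : ℝ => Λ t / t) atTop (𝓝 1))) ∧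
    (∀ Λ : ℝ → ℝ, Scale Λ → ∃ (Ω : Type) (_ : MeasurableSpace Ω) (P : Measure Ω)
      (_ : IsProbabilityMeasure P) (E : ℕ → Set Ω), Hazard P E Λ ∧
        ∀ n h : ℕ, 2 ≤ n → ∀ B : Set Ω, MeasurableSet[Past E n] B → B ⊆ E n →
          P.real (B ∩ Free E n (n + h)) = Real.exp (-Λ (h / Real.log n)) * P.real B) ∧
    (∀ (Ω : Type) [MeasurableSpace Ω] (P : Measure Ω) [IsProbabilityMeasure P] (E : ℕ → Set Ω),
      (∀ n, MeasurableSet (E n)) → iIndepSet E P →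
      Tendsto (fun n : ℕ => P.real (E n) * Real.log n) atTop (𝓝 1) →
      Hazard P E (fun t => t)) ∧
    (∀ a b : EReal, 0 ≤ a → a ≤ b → ∃ Λ : ℝ → ℝ, Scale Λ ∧
      liminf (fun t : ℝ => ((√(Λ t / t) : ℝ) : EReal)) atTop = a ∧
      limsup (fun t : ℝ => ((√(Λ t / t) : ℝ) : EReal)) atTop = b) := by
  refine ⟨fun Λ hS => ?_, fun Λ hS => ?_, Pool.Agent.H31.HZ.crm, rng⟩
  · obtain ⟨ψ, hψ⟩ := (ana Λ hS).1
    exact ⟨ψ, hψ, fun Ω _ P _ E hH =>
      ⟨law_ae Pool.Agent.H22.HZ.blk ana hS hψ P hH,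
        shanks_iff Pool.Agent.H22.HZ.blk ana hS P hH⟩⟩
  · obtain ⟨Ω, mΩ, P, hP, E, h1, h2, h3⟩ := Pool.Agent.H76.HZ.exi Λ hS
    exact ⟨Ω, mΩ, P, hP, E, model_hazard hS P h1 h2 h3, h3⟩

end Pool.Agent.Results.MP_926cc3_nt.HazardOfGaps
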