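import Pool.Agent.H41.SL.Primes

/-! # Shanks' law and local dependence: the possible laws in models of finite range

Shanks' conjecture `log p(g) ~ √g` (`p(g)` is the first prime after a run of at least `g` composite
numbers) comes from the model in which the integers `n` are put independently into a random set,
with probability `1 / log n`. We determine exactly which laws, that is, which pairs `(a, b)` of the
lower and the upper limit of `log p(g) / √g`, are possible if *local* dependence is allowed. Let
`m n` be the range of dependence: the parts of the random set in `[0, n]` and in `(n + m n, ∞)` are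
independent.

* For bounded `m n = d` the laws are exactly the pairs `1 / √(d + 1) ≤ a ≤ b ≤ 1`.
* For `m n → ∞`, `m n ~ c log n`, `c = l log (1 / l) < 1 / e`, `1 / e < l ≤ 1`, they are exactly the
  pairs `0 ≤ a ≤ b ≤ 1 / √l`. So the upper half `log p(g) ≤ (1 + o(1)) √g` of Shanks' law holds for
  all ranges `o(log n)` and fails for the range `c log n` for every `c > 0`; the lower half holds
  only for independence.
* For `m n ≥ c log n`, `c > 1 / e`, all pairs `0 ≤ a ≤ b ≤ ∞` occur: no half of any law
  `exp (O(√g))` is left.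

The bound for `b` has a deterministic form for the primes: if `limsup log p(g) / √g > 1 / √l`, then
for infinitely many `X` the primes are too frequent, by a factor `1 + δ`, at each distance
`d ≤ (c + δ) log X` after the end of the prime-free intervals `(n, n + h]`, `n < X`, for some
`h ≤ l (log X) ^ 2` for which there are at least `X ^ δ` such intervals.

Proof. Upper bound for `b`: the local lemma and many windows, at every scale. The models for the
pairs are mixtures of two block models with independent blocks (hard-core blocks with noise, or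
clusters) which alternate on the ranges `(T_i, T_(i + 1)]` of a tower `T_(i + 1) = 2 ^ T_i`; the
probability that a block is empty is prescribed exactly, so that the model has the exact rate `a ^ 2`
or `b ^ 2` of empty windows at the scales of the two types. -/

set_option autoImplicit false

namespace Pool.Agent.Results.MP_926cc3_nt.LocalDependence

open MeasureTheory Filter Topology ProbabilityTheory Pool.Agent.H41.LD Pool.Agent.H41.SL

/-- **The possible laws of the first occurrences in models with local dependence.** -/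
theorem result :
    -- (1) the primes: if `limsup log p(g) / √g > 1 / √l`, the primes are too frequent at each
    -- distance `d ≤ (c + δ) log X`, `c = l log (1 / l)`, after some prime-free intervals
    (∀ l : ℝ, Real.exp (-1) < l → l ≤ 1 → ((1 / √l : ℝ) : EReal) < upperLaw {n | n.Prime} →
      ∃ δ : ℝ, 0 < δ ∧ ∃ᶠ X : ℕ in atTop, ∀ d : ℕ, 1 ≤ d →
        (d : ℝ) ≤ (l * Real.log (1 / l) + δ) * Real.log X →
          ∃ h : ℕ, (h : ℝ) ≤ l * Real.log X ^ 2 ∧ (X : ℝ) ^ δ ≤ (freeSet X h).card ∧
            (1 + δ) / Real.log X * (freeSet X h).card ≤ (hitSet X h d).card) ∧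
    -- (2) every model has a law
    (∀ (Ω : Type) [MeasurableSpace Ω] (P : Measure Ω) [IsProbabilityMeasure P] (E : ℕ → Set Ω)
      (m : ℕ → ℕ), Model P E m → (∀ᶠ n : ℕ in atTop, m n ^ 2 ≤ n) →
      ∃ a b : EReal, 0 ≤ a ∧ a ≤ b ∧ IsLaw m a b ∧
        ∀ᵐ ω ∂P, {n | ω ∈ E n}.Infinite ∧ Unb {n | ω ∈ E n} ∧
          lowerLaw {n | ω ∈ E n} = a ∧ upperLaw {n | ω ∈ E n} = b) ∧
    -- (3) the upper half of the law
    (∀ (Ω : Type) [MeasurableSpace Ω] (P : Measure Ω) [IsProbabilityMeasure P] (E : ℕ → Set Ω)
      (m : ℕ → ℕ) (l : ℝ), Model P E m → Real.exp (-1) < l → l ≤ 1 →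
      (∀ ε : ℝ, 0 < ε → ∀ᶠ n : ℕ in atTop,
        (m n : ℝ) ≤ (l * Real.log (1 / l) + ε) * Real.log n) →
      ∀ᵐ ω ∂P, {n | ω ∈ E n}.Infinite ∧ Unb {n | ω ∈ E n} ∧
        upperLaw {n | ω ∈ E n} ≤ ((1 / √l : ℝ) : EReal)) ∧
    -- (4) the laws for a bounded range of dependence
    (∀ (d : ℕ) (a b : EReal), IsLaw (fun _ => d) a b ↔
      ((1 / √((d : ℝ) + 1) : ℝ) : EReal) ≤ a ∧ a ≤ b ∧ b ≤ 1) ∧
    -- (5) the laws below the threshold
    (∀ (m : ℕ → ℕ) (l : ℝ), Real.exp (-1) < l → l ≤ 1 → Tendsto m atTop atTop →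
      Tendsto (fun n : ℕ => (m n : ℝ) / Real.log n) atTop (𝓝 (l * Real.log (1 / l))) →
      ∀ a b : EReal, IsLaw m a b ↔ 0 ≤ a ∧ a ≤ b ∧ b ≤ ((1 / √l : ℝ) : EReal)) ∧
    -- (6) the laws above the threshold
    (∀ (m : ℕ → ℕ) (c : ℝ), Real.exp (-1) < c → (∀ᶠ n : ℕ in atTop, c * Real.log n ≤ m n) →
      ∀ a b : EReal, IsLaw m a b ↔ 0 ≤ a ∧ a ≤ b) := by
  refine ⟨fun l hl hl1 h => primes_shanks hl hl1 h, ?_,
    fun Ω _ P _ E m l h hl hl1 hm => upper_below h hl hl1 hm, laws_const,
    fun m l hl hl1 h1 h2 a b => laws_below hl hl1 h1 h2 a b,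
    fun m c hc hm a b => laws_above hc hm a b⟩
  intro Ω _ P _ E m h hm
  obtain ⟨a, b, ha, hab, hx⟩ := exists_law h hm
  exact ⟨a, b, ha, hab, ⟨Ω, inferInstance, P, inferInstance, E, h, hx⟩, hx⟩

end Pool.Agent.Results.MP_926cc3_nt.LocalDependence
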