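import Pool.Agent.H34.ND.Values

/-! # Shanks' conjecture in negatively dependent and determinantal models: all possible laws

Shanks' conjecture `log p(g) ~ √g`, where `p(g)` is the first prime that follows a run of at least
`g` consecutive composite numbers, comes from the model in which the primes are replaced by a random
set containing `n` with probability `1 / log n`, independently for different `n`. We determine which
laws are possible if the independence is replaced by negative dependence (the events that two
disjoint intervals contain no element are negatively correlated; for instance negatively associated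
or determinantal random sets).

(1) For every negatively dependent random set with `P(n ∈ A) ~ 1 / log n` there are constants
`1 ≤ a ≤ b ≤ ∞` such that almost surely `A` is infinite, `p(g)` is defined for all `g`, and
`log p(g) / √g` has the lower limit `a` and the upper limit `b`.

(2) Every pair `1 ≤ a ≤ b ≤ ∞` occurs, already for determinantal random sets with a Hermitian
kernel and the exact probabilities `P(n ∈ A) = 1 / log n`, `n ≥ 3`.

So the lower bound `liminf log p(g) / √g ≥ 1` of Shanks' conjecture holds in all negatively
dependent models, and nothing more: `a > 1`, `a < b` and `b = ∞` are possible.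

Proof of (1): `a = u ^ (-1/2)`, where `u` is the critical exponent of the probabilities of the empty
windows `(n, n + lam (log n) ^ 2]`, and `b = v ^ (-1/2)`, where `v` is the supremum of the `lam`
for which the expected number of the empty windows of length `lam (log X) ^ 2` below `X` is at least
`X ^ (-o(1))`, for all `X`. Negative dependence gives a power of `X` when `lam` is decreased, and
the second moment method an exceptional probability which is a power of `1 / X`. (2) is shown with
independent cells which contain at most one element; the size of the cells alternates between two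
values at the places `2 ^ (i!)`. -/

set_option autoImplicit false

namespace Pool.Agent.Results.MP_926cc3_nt.NegativelyDependentModels

open MeasureTheory Filter Topology Finset Pool.Agent.H34.ND

/-- **The possible laws of the first occurrences in negatively dependent models.** -/
theorem result :
    -- negatively dependent random sets of density `1 / log n` have a law `(a, b)`
    (∀ (Ω : Type) [MeasurableSpace Ω] (P : Measure Ω) [IsProbabilityMeasure P] (E : ℕ → Set Ω),
      NegDep P E → Tendsto (fun n : ℕ => P.real (E n) * Real.log n) atTop (𝓝 1) →
      ∃ a b : EReal, 1 ≤ a ∧ a ≤ b ∧ ∀ᵐ ω ∂P, {n | ω ∈ E n}.Infinite ∧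
        (∀ g : ℕ, ∃ k, Nat.nth (· ∈ {n | ω ∈ E n}) k + g <
          Nat.nth (· ∈ {n | ω ∈ E n}) (k + 1)) ∧
        liminf (fun g : ℕ => ((Real.log (firstAfter {n | ω ∈ E n} g) / √(g : ℝ) : ℝ) : EReal))
          atTop = a ∧
        limsup (fun g : ℕ => ((Real.log (firstAfter {n | ω ∈ E n} g) / √(g : ℝ) : ℝ) : EReal))
          atTop = b) ∧
    -- every law `(a, b)` occurs for a determinantal random set
    (∀ a b : EReal, 1 ≤ a → a ≤ b →
      ∃ (Ω : Type) (_ : MeasurableSpace Ω) (P : Measure Ω) (_ : IsProbabilityMeasure P)
        (E : ℕ → Set Ω) (K : ℕ → ℕ → ℂ), Determinantal P E K ∧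
        (∀ n, P.real (E n) = if 3 ≤ n then 1 / Real.log n else 0) ∧
        ∀ᵐ ω ∂P, {n | ω ∈ E n}.Infinite ∧
        (∀ g : ℕ, ∃ k, Nat.nth (· ∈ {n | ω ∈ E n}) k + g <
          Nat.nth (· ∈ {n | ω ∈ E n}) (k + 1)) ∧
        liminf (fun g : ℕ => ((Real.log (firstAfter {n | ω ∈ E n} g) / √(g : ℝ) : ℝ) : EReal))
          atTop = a ∧
        limsup (fun g : ℕ => ((Real.log (firstAfter {n | ω ∈ E n} g) / √(g : ℝ) : ℝ) : EReal))
          atTop = b) ∧
    -- determinantal random sets are negatively dependent
    (∀ (Ω : Type) [MeasurableSpace Ω] (P : Measure Ω) [IsProbabilityMeasure P] (E : ℕ → Set Ω)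
      (K : ℕ → ℕ → ℂ), Determinantal P E K → NegDep P E) := by
  refine ⟨?_, ?_, ?_⟩
  · intro Ω _ P _ E h hp
    have h1 := h.shanks hp
    have hu0 : 0 ≤ critical (emp P E) := critical_nonneg
    have hu1 := h.cramer_le_one hp
    refine ⟨rs (critical (emp P E)), rs (lowExp P E), one_le_rs hu0 hu1, ?_, h1⟩
    obtain ⟨ω, _, _, h2, h3⟩ := h1.exists
    rw [← h2, ← h3]
    exact liminf_le_limsup
  · intro a b ha hab
    obtain ⟨s, lab, hc, h2, h3⟩ := exists_model ha hab
    refine ⟨ℕ → ℝ, inferInstance, cellP, inferInstance, cellE cp s lab, cellK cp lab,
      hc.determinantal, hc.real_eq, ?_⟩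
    have h1 := hc.determinantal.negDep.shanks (by
      simp_rw [hc.real_eq]
      exact cp_density)
    rw [h2, h3] at h1
    exact h1
  · intro Ω _ P _ E K h
    exact h.negDep

end Pool.Agent.Results.MP_926cc3_nt.NegativelyDependentModels
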